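import Mathlib
import Pool.Agent.Helper450.Kneser

/-!
Auxiliary facts around Kneser's theorem (the lemmas of section `general` are helper516's, from
`Pool/Agent/Results/MP_c7e63d_co/SignedCritical.lean`).
-/

set_option autoImplicit false
set_option linter.unusedSectionVars false

open scoped Pointwise
open Pool.Agent.Helper450.Kneser

namespace Pool.Agent.H845.KneserAux

section general

variable {G : Type*} [AddCommGroup G] [Fintype G] [DecidableEq G]

/-- iterated sumset -/
def it (B : Finset G) : ℕ → Finset G
  | 0 => {0}
  | k + 1 => it B k + B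

lemma it_one (B : Finset G) : it B 1 = B := by
  rw [it, it, Finset.singleton_zero, zero_add]

lemma it_add (B : Finset G) (i j : ℕ) : it B (i + j) = it B i + it B j := by
  induction j with
  | zero => rw [add_zero, show it B 0 = 0 from Finset.singleton_zero, add_zero]
  | succ j ih => rw [← add_assoc, it, ih, it, add_assoc]

lemma it_nonempty {B : Finset G} (hB : B.Nonempty) (k : ℕ) : (it B k).Nonempty := by
  induction k with
  | zero => exact Finset.singleton_nonempty 0
  | succ k ih => exact ih.add hB

lemma stab_le_stab_add (X Y : Finset G) : stab X ≤ stab (X + Y) := by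
  intro g hg
  refine mem_stab_of_forall fun z hz => ?_
  obtain ⟨x, hx, y, hy, rfl⟩ := Finset.mem_add.mp hz
  rw [show x + y + g = (x + g) + y by abel]
  exact Finset.add_mem_add (stab_add hg hx) hy

lemma fs_add_fs (H : AddSubgroup G) : fs H + fs H = fs H := by
  apply add_fs_stab
  intro g hg x
  rw [mem_fs, mem_fs]
  exact ⟨fun hx => H.add_mem hx hg, fun hx => by
    have := H.sub_mem hx hg
    rwa [add_sub_cancel_right] at this⟩

lemma le_stab_add_fs (X : Finset G) (H : AddSubgroup G) : H ≤ stab (X + fs H) := by
  intro g hg
  refine mem_stab_of_forall fun z hz => ?_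
  obtain ⟨x, hx, y, hy, rfl⟩ := Finset.mem_add.mp hz
  rw [add_assoc]
  exact Finset.add_mem_add hx (mem_fs.mpr (H.add_mem (mem_fs.mp hy) hg))

/-- Kneser's inequality for iterated sumsets. -/
lemma kneser_it {B : Finset G} (hB : B.Nonempty) {s : ℕ} (hs : 1 ≤ s) :
    s * (B + fs (stab (it B s))).card ≤ (it B s).card + (s - 1) * (fs (stab (it B s))).card := by
  set H := stab (it B s) with hH
  have key : ∀ j, 1 ≤ j → j ≤ s →
      j * (B + fs H).card ≤ (it B j + fs H).card + (j - 1) * (fs H).card := by
    intro j hj
    induction j, hj using Nat.le_induction with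
    | base => intro _; rw [it_one]; omega
    | succ j hj ih =>
      intro hjs
      have ih' := ih (by omega)
      have hk := kneser (it B j + fs H) (B + fs H) ((it_nonempty hB j).add (fs_nonempty H))
        (hB.add (fs_nonempty H))
      have e : it B j + fs H + (B + fs H) = it B (j + 1) + fs H := by
        rw [add_add_add_comm, fs_add_fs, it]
      rw [e] at hk
      have hle : stab (it B (j + 1) + fs H) ≤ H := by
        have h1 := stab_le_stab_add (it B (j + 1) + fs H) (it B (s - (j + 1)))
        have h2 : it B (j + 1) + fs H + it B (s - (j + 1)) = it B s := by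
          rw [add_right_comm, ← it_add, show j + 1 + (s - (j + 1)) = s by omega]
          exact add_fs_stab _ _ le_rfl
        rwa [h2] at h1
      have hc := Finset.card_le_card (fs_mono hle)
      have e2 : (j + 1 - 1) * (fs H).card = (j - 1) * (fs H).card + (fs H).card := by
        obtain ⟨i, rfl⟩ : ∃ i, j = i + 1 := ⟨j - 1, by omega⟩
        simp only [Nat.add_sub_cancel]
        ring
      rw [e2, add_mul, one_mul]
      omega
  have := key s hs le_rfl
  rwa [add_fs_stab (it B s) H le_rfl] at this

/-- A periodic finite set is a union of cosets. -/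
lemma card_fs_dvd {C : Finset G} {H : AddSubgroup G} (hH : H ≤ stab C) :
    (fs H).card ∣ C.card := by
  classical
  let q : G → G ⧸ H := fun x => (x : G ⧸ H)
  have h1 : C.card = ∑ y ∈ C.image q, (C.filter fun x => q x = y).card :=
    Finset.card_eq_sum_card_image q C
  rw [h1]
  refine Finset.dvd_sum fun y hy => ?_
  obtain ⟨x0, hx0, rfl⟩ := Finset.mem_image.mp hy
  have h2 : (C.filter fun x => q x = q x0) = (fs H).image (fun g => x0 + g) := by
    ext x
    simp only [Finset.mem_filter, Finset.mem_image, mem_fs]
    constructor
    · rintro ⟨_, hx⟩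
      refine ⟨-x0 + x, ?_, by abel⟩
      exact (QuotientAddGroup.eq.mp hx.symm)
    · rintro ⟨g, hg, rfl⟩
      exact ⟨stab_add (hH hg) hx0, (QuotientAddGroup.eq.mpr (by simpa using hg)).symm⟩
  rw [h2, Finset.card_image_of_injective _ (add_right_injective x0)]

end general

section fibre

/-- preimages under `ZMod n → ZMod d` -/
lemma card_preimage {n d : ℕ} [NeZero n] [NeZero d] (hd : d ∣ n) (S : Finset (ZMod d)) :
    (Finset.univ.filter fun x : ZMod n => ZMod.castHom hd (ZMod d) x ∈ S).card =
      S.card * (n / d) := by
  classical
  have hd0 : 0 < d := Nat.pos_of_ne_zero (NeZero.ne d)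
  let f : ZMod n →+* ZMod d := ZMod.castHom hd (ZMod d)
  have hf : Function.Surjective f := ZMod.castHom_surjective hd
  have hfib : ∀ y : ZMod d, (Finset.univ.filter fun x : ZMod n => f x = y).card = n / d := by
    have hconst : ∀ y y' : ZMod d, (Finset.univ.filter fun x : ZMod n => f x = y).card =
        (Finset.univ.filter fun x : ZMod n => f x = y').card := by
      intro y y'
      obtain ⟨z, hz⟩ := hf (y' - y)
      refine Finset.card_bij (fun x _ => x + z) ?_ ?_ ?_
      · intro x hx
        rw [Finset.mem_filter] at hx ⊢
        exact ⟨Finset.mem_univ _, by rw [map_add, hx.2, hz]; abel⟩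
      · intro a _ b _ hab
        exact add_right_cancel hab
      · intro x hx
        rw [Finset.mem_filter] at hx
        exact ⟨x - z, by rw [Finset.mem_filter]; exact ⟨Finset.mem_univ _, by
          rw [map_sub, hx.2, hz]; abel⟩, by abel⟩
    intro y
    have h1 : (Finset.univ : Finset (ZMod n)).card =
        ∑ y' ∈ (Finset.univ : Finset (ZMod d)), (Finset.univ.filter fun x : ZMod n => f x = y').card :=
      Finset.card_eq_sum_card_fiberwise fun x _ => Finset.mem_coe.mpr (Finset.mem_univ (f x))
    rw [Finset.sum_congr rfl fun y' _ => hconst y' y, Finset.sum_const, Finset.card_univ,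
      Finset.card_univ, ZMod.card, ZMod.card, smul_eq_mul] at h1
    exact (Nat.div_eq_of_eq_mul_right hd0 h1).symm
  have h1 : (Finset.univ.filter fun x : ZMod n => f x ∈ S).card =
      ∑ y ∈ S, ((Finset.univ.filter fun x : ZMod n => f x ∈ S).filter fun x => f x = y).card :=
    Finset.card_eq_sum_card_fiberwise fun x hx => (Finset.mem_filter.mp hx).2
  show (Finset.univ.filter fun x : ZMod n => f x ∈ S).card = S.card * (n / d)
  rw [h1]
  have h2 : ∀ y ∈ S, ((Finset.univ.filter fun x : ZMod n => f x ∈ S).filter
      fun x => f x = y).card = n / d := by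
    intro y hy
    rw [← hfib y]
    congr 1
    ext x
    simp only [Finset.mem_filter, Finset.mem_univ, true_and]
    constructor
    · exact fun h => h.2
    · exact fun h => ⟨by rw [h]; exact hy, h⟩
  rw [Finset.sum_congr rfl h2, Finset.sum_const, smul_eq_mul]

end fibre

end Pool.Agent.H845.KneserAux
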