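import Mathlib

/-!
# `t`-independent subsets of cyclic groups

Basic definitions (`h`-fold signed sumsets, `t`-independence, `τ_±(ℤ_n,[1,t])`) and the
combinatorial lemmas used for the explicit evaluations.
-/

namespace H845.TInd

open Finset

/-- The `h`-fold signed sumset `h_± A = {∑_{a ∈ A} λ_a a : λ_a ∈ ℤ, ∑_{a ∈ A} |λ_a| = h}` of a
finite subset `A` of `ℤ/n`. -/
def signedSumset {n : ℕ} (A : Finset (ZMod n)) (h : ℕ) : Set (ZMod n) :=
  {x | ∃ lam : ZMod n → ℤ, ∑ a ∈ A, (lam a).natAbs = h ∧ x = ∑ a ∈ A, lam a • a}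

/-- `A` is `t`-independent: `0 ∉ [1,t]_± A = ⋃_{h=1}^{t} h_± A`. -/
def IsTIndependent {n : ℕ} (t : ℕ) (A : Finset (ZMod n)) : Prop :=
  (0 : ZMod n) ∉ ⋃ h ∈ Set.Icc 1 t, signedSumset A h

/-- `τ_±(ℤ_n,[1,t])`, the maximum size of a `t`-independent subset of `ℤ/n` (for `n ≥ 1`). -/
noncomputable def tau (n t : ℕ) : ℕ :=
  sSup {m : ℕ | ∃ A : Finset (ZMod n), IsTIndependent t A ∧ A.card = m}

theorem isTIndependent_iff {n t : ℕ} {A : Finset (ZMod n)} :
    IsTIndependent t A ↔ ∀ lam : ZMod n → ℤ, 1 ≤ ∑ a ∈ A, (lam a).natAbs →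
      ∑ a ∈ A, (lam a).natAbs ≤ t → ∑ a ∈ A, lam a • a ≠ 0 := by
  unfold IsTIndependent signedSumset
  simp only [Set.mem_Icc, Set.mem_iUnion, Set.mem_ofPred_eq, exists_prop, not_exists, not_and]
  constructor
  · intro H lam h1 h2 h0
    exact H _ ⟨h1, h2⟩ lam rfl h0.symm
  · intro H h hh lam hl h0
    subst hl
    exact H lam hh.1 hh.2 h0.symm

theorem IsTIndependent.mono {n t : ℕ} {A B : Finset (ZMod n)} (h : IsTIndependent t A)
    (hBA : B ⊆ A) : IsTIndependent t B := by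
  classical
  rw [isTIndependent_iff] at h ⊢
  intro lam h1 h2
  have e1 : ∑ a ∈ A, ((if a ∈ B then lam a else 0 : ℤ)).natAbs = ∑ a ∈ B, (lam a).natAbs := by
    rw [← Finset.sum_subset hBA (f := fun a => ((if a ∈ B then lam a else 0 : ℤ)).natAbs)]
    · exact Finset.sum_congr rfl fun a ha => by simp [ha]
    · intro a _ ha; simp [ha]
  have e2 : ∑ a ∈ A, ((if a ∈ B then lam a else 0 : ℤ)) • a = ∑ a ∈ B, lam a • a := by
    rw [← Finset.sum_subset hBA (f := fun a => ((if a ∈ B then lam a else 0 : ℤ)) • a)]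
    · exact Finset.sum_congr rfl fun a ha => by simp [ha]
    · intro a _ ha; simp [ha]
  have := h (fun a => if a ∈ B then lam a else 0) (by rw [e1]; exact h1) (by rw [e1]; exact h2)
  rwa [e2] at this

theorem tau_set_bdd (n t : ℕ) [NeZero n] :
    BddAbove {m : ℕ | ∃ A : Finset (ZMod n), IsTIndependent t A ∧ A.card = m} := by
  refine ⟨Fintype.card (ZMod n), ?_⟩
  rintro m ⟨A, -, rfl⟩
  exact Finset.card_le_univ A

theorem le_tau {n t : ℕ} [NeZero n] {A : Finset (ZMod n)} (h : IsTIndependent t A) :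
    A.card ≤ tau n t :=
  le_csSup (tau_set_bdd n t) ⟨A, h, rfl⟩

theorem tau_le {n t m : ℕ} (h : ∀ A : Finset (ZMod n), IsTIndependent t A → A.card ≠ m + 1) :
    tau n t ≤ m := by
  apply csSup_le'
  rintro k ⟨A, hA, rfl⟩
  by_contra hlt
  rw [not_le] at hlt
  obtain ⟨B, hBA, hB⟩ := Finset.exists_subset_card_eq (Nat.succ_le_of_lt hlt)
  exact h B (hA.mono hBA) hB


/-- `x` is a signed sum of the list `l` (of naturals, read in `ℤ/n`) with total weight `k`. -/
def Rep (n : ℕ) : List ℕ → ℕ → ZMod n → Prop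
  | [], k, x => k = 0 ∧ x = 0
  | v :: l, k, x => ∃ (c : ℤ) (k' : ℕ) (y : ZMod n),
      Rep n l k' y ∧ k = c.natAbs + k' ∧ x = c • (v : ZMod n) + y

theorem rep_zero (n : ℕ) (l : List ℕ) : Rep n l 0 0 := by
  induction l with
  | nil => exact ⟨rfl, rfl⟩
  | cons v l ih => exact ⟨0, 0, 0, ih, by simp, by simp⟩

theorem rep_iff {n : ℕ} : ∀ {l : List ℕ} (_ : l.Nodup) {k : ℕ} {x : ZMod n},
    Rep n l k x ↔ ∃ c : ℕ → ℤ, ∑ v ∈ l.toFinset, (c v).natAbs = k ∧
      x = ∑ v ∈ l.toFinset, c v • (v : ZMod n)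
  | [], _, k, x => by
      simp only [Rep, List.toFinset_nil, Finset.sum_empty, exists_const]
      exact ⟨fun h => ⟨h.1.symm, h.2⟩, fun h => ⟨h.1.symm, h.2⟩⟩
  | v :: l, hl, k, x => by
      obtain ⟨hv, hl'⟩ := List.nodup_cons.1 hl
      have hv' : v ∉ l.toFinset := by simpa using hv
      have ih := @rep_iff n l hl'
      simp only [Rep, List.toFinset_cons, Finset.sum_insert hv']
      constructor
      · rintro ⟨c, k', y, hy, hk, hx⟩
        obtain ⟨d, hd1, hd2⟩ := ih.1 hy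
        refine ⟨Function.update d v c, ?_, ?_⟩
        · rw [Function.update_self, hk, ← hd1]
          congr 1
          refine Finset.sum_congr rfl fun a ha => ?_
          rw [Function.update_of_ne (by rintro rfl; exact hv' ha)]
        · rw [Function.update_self, hx, hd2]
          congr 1
          refine Finset.sum_congr rfl fun a ha => ?_
          rw [Function.update_of_ne (by rintro rfl; exact hv' ha)]
      · rintro ⟨c, h1, h2⟩
        exact ⟨c v, _, _, ih.2 ⟨c, rfl, rfl⟩, h1.symm, h2⟩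

/-- no nontrivial relation of weight at most `t` -/
def NR (n t : ℕ) (l : List ℕ) : Prop := ∀ k, 1 ≤ k → k ≤ t → ¬ Rep n l k 0

theorem NR.tail {n t v : ℕ} {l : List ℕ} (h : NR n t (v :: l)) : NR n t l := by
  intro k h1 h2 h3
  exact h k h1 h2 ⟨0, k, 0, h3, by simp, by simp⟩

theorem NR.of_append {n t : ℕ} {l : List ℕ} : ∀ {L : List ℕ}, NR n t (L ++ l) → NR n t l
  | [], h => h
  | _ :: L, h => NR.of_append (L := L) h.tail

/-! ### The search for `t = 4` -/

/-- rotation of a bit mask by `r` modulo `n` -/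
def rot (n m r : ℕ) : ℕ := ((m <<< r) ||| (m >>> (n - r))) % 2 ^ n

theorem of_testBit_rot {n m r i : ℕ} (hr : r ≤ n) (h : (rot n m r).testBit i = true) :
    ∃ j, m.testBit j = true ∧ (i : ZMod n) = (j : ZMod n) + (r : ZMod n) := by
  unfold rot at h
  rw [Nat.testBit_mod_two_pow, Nat.testBit_or, Nat.testBit_shiftLeft, Nat.testBit_shiftRight] at h
  simp only [Bool.and_eq_true, Bool.or_eq_true, decide_eq_true_eq] at h
  obtain ⟨hi, ⟨hri, h1⟩ | h1⟩ := h
  · refine ⟨i - r, h1, ?_⟩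
    rw [← Nat.cast_add, Nat.sub_add_cancel hri]
  · refine ⟨n - r + i, h1, ?_⟩
    rw [← Nat.cast_add]
    have : n - r + i + r = n + i := by omega
    rw [this, Nat.cast_add, ZMod.natCast_self, zero_add]

theorem of_testBit_one_shiftLeft {r i : ℕ} (h : (1 <<< r : ℕ).testBit i = true) : i = r := by
  rw [Nat.one_shiftLeft, Nat.testBit_two_pow] at h
  simpa using (of_decide_eq_true (by simpa using h) : r = i).symm

/-- `m = (m₁,m₂,m₃)`: residues reachable with weight at most `1,2,3` -/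
def ok4 (n x : ℕ) (m : ℕ × ℕ × ℕ) : Bool :=
  !(m.2.2.testBit x) && (!(m.2.1.testBit (2 * x % n)) && (!(m.1.testBit (3 * x % n)) &&
    !(Nat.beq (4 * x % n) 0)))

/-- update of the masks when `x` is added -/
def add4 (n x : ℕ) (m : ℕ × ℕ × ℕ) : ℕ × ℕ × ℕ :=
  (m.1 ||| ((1 <<< x) ||| (1 <<< (n - x))),
   m.2.1 ||| ((rot n m.1 x ||| rot n m.1 (n - x)) ||| ((1 <<< (2 * x % n)) ||| (1 <<< (n - 2 * x % n)))),
   m.2.2 ||| ((rot n m.2.1 x ||| rot n m.2.1 (n - x)) |||
      ((rot n m.1 (2 * x % n) ||| rot n m.1 (n - 2 * x % n)) |||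
       ((1 <<< (3 * x % n)) ||| (1 <<< (n - 3 * x % n))))))

/-- depth-first search for decreasing sequences of length `d` below `hi` -/
def dfs4 (n : ℕ) : ℕ → ℕ → ℕ × ℕ × ℕ → Bool
  | 0, _, _ => true
  | d + 1, hi, m => (List.range hi).any fun x => ok4 n x m && dfs4 n d x (add4 n x m)

/-- soundness of a mask -/
def Snd (n : ℕ) (l : List ℕ) (w m : ℕ) : Prop :=
  ∀ i, m.testBit i = true → ∃ k ≤ w, Rep n l k (i : ZMod n)

theorem Snd.or {n w a b : ℕ} {l : List ℕ} (ha : Snd n l w a) (hb : Snd n l w b) :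
    Snd n l w (a ||| b) := by
  intro i hi
  rw [Nat.testBit_or, Bool.or_eq_true] at hi
  exact hi.elim (ha i) (hb i)

theorem Snd.cons {n w a v : ℕ} {l : List ℕ} (ha : Snd n l w a) : Snd n (v :: l) w a := by
  intro i hi
  obtain ⟨k, hk, h⟩ := ha i hi
  exact ⟨k, hk, 0, k, _, h, by simp, by simp⟩

theorem Snd.rot_pos {n w a v w' c : ℕ} {l : List ℕ} (ha : Snd n l w a) (r : ℕ) (hr : r ≤ n)
    (hrc : (r : ZMod n) = (c : ZMod n) * v) (hw : c + w ≤ w') : Snd n (v :: l) w' (rot n a r) := by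
  intro i hi
  obtain ⟨j, hj, hij⟩ := of_testBit_rot hr hi
  obtain ⟨k, hk, h⟩ := ha j hj
  refine ⟨c + k, by omega, (c : ℤ), k, _, h, by simp, ?_⟩
  rw [hij, hrc, zsmul_eq_mul]; push_cast; ring

theorem Snd.rot_neg {n w a v w' c : ℕ} {l : List ℕ} (ha : Snd n l w a) (r : ℕ) (hr : r ≤ n)
    (hrc : (r : ZMod n) = -((c : ZMod n) * v)) (hw : c + w ≤ w') :
    Snd n (v :: l) w' (rot n a r) := by
  intro i hi
  obtain ⟨j, hj, hij⟩ := of_testBit_rot hr hi
  obtain ⟨k, hk, h⟩ := ha j hj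
  refine ⟨c + k, by omega, -(c : ℤ), k, _, h, by simp, ?_⟩
  rw [hij, hrc, zsmul_eq_mul]; push_cast; ring

theorem Snd.one_pos {n v w' c : ℕ} {l : List ℕ} (r : ℕ)
    (hrc : (r : ZMod n) = (c : ZMod n) * v) (hw : c ≤ w') : Snd n (v :: l) w' (1 <<< r) := by
  intro i hi
  obtain rfl := of_testBit_one_shiftLeft hi
  refine ⟨c, hw, (c : ℤ), 0, 0, rep_zero n l, by simp, ?_⟩
  rw [hrc, zsmul_eq_mul]; push_cast; ring

theorem Snd.one_neg {n v w' c : ℕ} {l : List ℕ} (r : ℕ)
    (hrc : (r : ZMod n) = -((c : ZMod n) * v)) (hw : c ≤ w') : Snd n (v :: l) w' (1 <<< r) := by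
  intro i hi
  obtain rfl := of_testBit_one_shiftLeft hi
  refine ⟨c, hw, -(c : ℤ), 0, 0, rep_zero n l, by simp, ?_⟩
  rw [hrc, zsmul_eq_mul]; push_cast; ring

/-- soundness of the triple of masks -/
def Inv (n : ℕ) (l : List ℕ) (m : ℕ × ℕ × ℕ) : Prop :=
  Snd n l 1 m.1 ∧ Snd n l 2 m.2.1 ∧ Snd n l 3 m.2.2

theorem cast_sub_self {n r : ℕ} (hr : r ≤ n) : ((n - r : ℕ) : ZMod n) = -(r : ZMod n) := by
  rw [Nat.cast_sub hr, ZMod.natCast_self, zero_sub]

theorem Inv.add {n x : ℕ} {l : List ℕ} {m : ℕ × ℕ × ℕ} (h : Inv n l m) (hx : x ≤ n) (hn : 0 < n) :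
    Inv n (x :: l) (add4 n x m) := by
  obtain ⟨h1, h2, h3⟩ := h
  have m2 : 2 * x % n ≤ n := (Nat.mod_lt _ hn).le
  have m3 : 3 * x % n ≤ n := (Nat.mod_lt _ hn).le
  have e1 : (x : ZMod n) = ((1 : ℕ) : ZMod n) * x := by simp
  have e1' : ((n - x : ℕ) : ZMod n) = -(((1 : ℕ) : ZMod n) * x) := by rw [cast_sub_self hx]; simp
  have e2 : ((2 * x % n : ℕ) : ZMod n) = ((2 : ℕ) : ZMod n) * x := by
    rw [ZMod.natCast_mod]; push_cast; ring
  have e2' : ((n - 2 * x % n : ℕ) : ZMod n) = -(((2 : ℕ) : ZMod n) * x) := by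
    rw [cast_sub_self m2, e2]
  have e3 : ((3 * x % n : ℕ) : ZMod n) = ((3 : ℕ) : ZMod n) * x := by
    rw [ZMod.natCast_mod]; push_cast; ring
  have e3' : ((n - 3 * x % n : ℕ) : ZMod n) = -(((3 : ℕ) : ZMod n) * x) := by
    rw [cast_sub_self m3, e3]
  refine ⟨?_, ?_, ?_⟩
  · exact h1.cons.or ((Snd.one_pos x e1 (by norm_num)).or (Snd.one_neg _ e1' (by norm_num)))
  · exact h2.cons.or (((h1.rot_pos x hx e1 (by norm_num)).or
      (h1.rot_neg _ (Nat.sub_le _ _) e1' (by norm_num))).or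
      ((Snd.one_pos _ e2 (by norm_num)).or (Snd.one_neg _ e2' (by norm_num))))
  · exact h3.cons.or (((h2.rot_pos x hx e1 (by norm_num)).or
      (h2.rot_neg _ (Nat.sub_le _ _) e1' (by norm_num))).or
      (((h1.rot_pos _ m2 e2 (by norm_num)).or (h1.rot_neg _ (Nat.sub_le _ _) e2' (by norm_num))).or
      ((Snd.one_pos _ e3 (by norm_num)).or (Snd.one_neg _ e3' (by norm_num)))))

theorem ok4_of_NR {n x : ℕ} {l : List ℕ} {m : ℕ × ℕ × ℕ} (h : Inv n l m)
    (hNR : NR n 4 (x :: l)) : ok4 n x m = true := by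
  obtain ⟨h1, h2, h3⟩ := h
  have key : ∀ (c k : ℕ) (y : ZMod n), 1 ≤ c → c + k ≤ 4 → Rep n l k y →
      y = (c : ZMod n) * x → False := by
    intro c k y hc hck hr hy
    refine hNR (c + k) (by omega) hck ⟨-(c : ℤ), k, y, hr, by simp, ?_⟩
    rw [hy, zsmul_eq_mul]; push_cast; ring
  unfold ok4
  simp only [Bool.and_eq_true, Bool.not_eq_true', ← Bool.not_eq_true]
  refine ⟨fun hb => ?_, fun hb => ?_, fun hb => ?_, fun hb => ?_⟩
  · obtain ⟨k, hk, hr⟩ := h3 _ hb
    exact key 1 k _ le_rfl (by omega) hr (by simp)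
  · obtain ⟨k, hk, hr⟩ := h2 _ hb
    exact key 2 k _ (by norm_num) (by omega) hr (by rw [ZMod.natCast_mod]; push_cast; ring)
  · obtain ⟨k, hk, hr⟩ := h1 _ hb
    exact key 3 k _ (by norm_num) (by omega) hr (by rw [ZMod.natCast_mod]; push_cast; ring)
  · have h0 : 4 * x % n = 0 := Nat.eq_of_beq_eq_true hb
    refine key 4 0 0 (by norm_num) (by norm_num) (rep_zero n l) ?_
    have : ((4 * x % n : ℕ) : ZMod n) = 0 := by rw [h0]; simp
    rw [ZMod.natCast_mod] at this
    push_cast at this ⊢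
    exact this.symm

theorem dfs4_complete {n : ℕ} (hn : 0 < n) : ∀ (L l : List ℕ) (m : ℕ × ℕ × ℕ) (hi : ℕ),
    Inv n l m → L.Pairwise (· > ·) → (∀ x ∈ L, x < hi) → hi ≤ n + 1 →
    NR n 4 (L.reverse ++ l) → dfs4 n L.length hi m = true
  | [], _, _, _, _, _, _, _, _ => rfl
  | x :: L, l, m, hi, hm, hL, hlt, hhi, hNR => by
      have hxhi : x < hi := hlt x (by simp)
      have hx : x ≤ n := by omega
      rw [List.reverse_cons, List.append_assoc, List.singleton_append] at hNR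
      have hok : ok4 n x m = true := ok4_of_NR hm hNR.of_append
      have hrec := dfs4_complete hn L (x :: l) (add4 n x m) x (hm.add hx hn)
        (List.pairwise_cons.1 hL).2 (fun y hy => (List.pairwise_cons.1 hL).1 y hy) (by omega) hNR
      rw [List.length_cons, dfs4, List.any_eq_true]
      exact ⟨x, List.mem_range.2 hxhi, by rw [hok, hrec]; rfl⟩

theorem inv_init (n : ℕ) : Inv n [] (1, 1, 1) := by
  have : ∀ w, Snd n [] w 1 := by
    intro w i hi
    have : i = 0 := of_testBit_one_shiftLeft (r := 0) (by simpa using hi)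
    subst this
    exact ⟨0, Nat.zero_le _, rfl, by simp⟩
  exact ⟨this 1, this 2, this 3⟩

/-- If the search of depth `d` fails, then no `4`-independent set of size `d` exists. -/
theorem card_ne_of_dfs4 {n d : ℕ} [NeZero n] (h : dfs4 n d (n / 2 + 1) (1, 1, 1) = false)
    (A : Finset (ZMod n)) (hA : IsTIndependent 4 A) : A.card ≠ d := by
  classical
  intro hcard
  rw [isTIndependent_iff] at hA
  set g : ZMod n → ℕ := fun a => a.valMinAbs.natAbs with hg
  have hgle : ∀ a, g a ≤ n / 2 := fun a => ZMod.natAbs_valMinAbs_le a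
  have hgc : ∀ a, ((g a : ℕ) : ZMod n) = a ∨ ((g a : ℕ) : ZMod n) = -a := by
    intro a
    have h0 : ((a.valMinAbs : ℤ) : ZMod n) = a := ZMod.coe_valMinAbs a
    rcases Int.natAbs_eq a.valMinAbs with h1 | h1
    · left
      have h2 : (((a.valMinAbs.natAbs : ℕ) : ℤ) : ZMod n) = a := by rw [← h1]; exact h0
      rw [Int.cast_natCast] at h2
      exact h2
    · right
      have h2 : ((-((a.valMinAbs.natAbs : ℕ) : ℤ) : ℤ) : ZMod n) = a := by rw [← h1]; exact h0
      rw [Int.cast_neg, Int.cast_natCast] at h2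
      exact neg_eq_iff_eq_neg.1 h2
  have hinj : Set.InjOn g A := by
    intro a ha b hb hab
    by_contra hne
    have hab' : a = -b := by
      rcases hgc a with h1 | h1 <;> rcases hgc b with h2 | h2
      · exact absurd (h1.symm.trans ((congrArg _ hab).trans h2)) hne
      · exact h1.symm.trans ((congrArg _ hab).trans h2)
      · have : -a = b := h1.symm.trans ((congrArg _ hab).trans h2)
        rw [← this, neg_neg]
      · exact absurd (neg_injective (h1.symm.trans ((congrArg _ hab).trans h2))) hne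
    have ha' : a ∈ A := ha
    have hb' : b ∈ A := hb
    have s1 : ∑ c ∈ A, ((if c = a then (1 : ℤ) else 0) + (if c = b then 1 else 0)).natAbs = 2 := by
      have : ∀ c ∈ A, ((if c = a then (1 : ℤ) else 0) + (if c = b then 1 else 0)).natAbs =
          (if c = a then 1 else 0) + (if c = b then 1 else 0) := by
        intro c _
        split_ifs <;> rfl
      rw [Finset.sum_congr rfl this, Finset.sum_add_distrib, Finset.sum_ite_eq' A a,
        Finset.sum_ite_eq' A b, if_pos ha', if_pos hb']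
    refine hA (fun c => (if c = a then (1 : ℤ) else 0) + (if c = b then 1 else 0))
      (by rw [s1]; norm_num) (by rw [s1]; norm_num) ?_
    simp only [add_smul, Finset.sum_add_distrib, ite_smul, one_smul, zero_smul]
    rw [Finset.sum_ite_eq' A a, Finset.sum_ite_eq' A b, if_pos ha', if_pos hb', hab']
    simp
  set B : Finset ℕ := A.image g with hB
  have hBcard : B.card = d := by rw [hB, Finset.card_image_of_injOn hinj, hcard]
  set F : List ℕ := B.sort (· ≤ ·) with hF
  have hFnd : F.Nodup := Finset.sort_nodup _ _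
  have hFset : F.toFinset = B := Finset.sort_toFinset _ _
  have hNR : NR n 4 F := by
    intro k hk1 hk4 hrep
    obtain ⟨c, hc1, hc2⟩ := (rep_iff hFnd).1 hrep
    rw [hFset] at hc1 hc2
    rw [hB, Finset.sum_image hinj] at hc1 hc2
    set lam : ZMod n → ℤ := fun a => (if ((g a : ℕ) : ZMod n) = a then 1 else -1) * c (g a)
    have e1 : ∀ a, (lam a).natAbs = (c (g a)).natAbs := by
      intro a
      simp only [lam]
      split_ifs <;> simp
    have e2 : ∀ a, lam a • a = c (g a) • ((g a : ℕ) : ZMod n) := by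
      intro a
      simp only [lam]
      split_ifs with h1
      · rw [h1, one_mul]
      · rcases hgc a with h2 | h2
        · exact absurd h2 h1
        · rw [h2]; simp
    refine hA lam ?_ ?_ ?_
    · rw [Finset.sum_congr rfl fun a _ => e1 a, hc1]; exact hk1
    · rw [Finset.sum_congr rfl fun a _ => e1 a, hc1]; exact hk4
    · rw [Finset.sum_congr rfl fun a _ => e2 a]; exact hc2.symm
  have hlen : F.reverse.length = d := by
    rw [List.length_reverse, hF, Finset.length_sort, hBcard]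
  have := dfs4_complete (NeZero.pos n) F.reverse [] (1, 1, 1) (n / 2 + 1) (inv_init n)
    (by
      rw [List.pairwise_reverse]
      exact Finset.sortedLT_sort B |>.pairwise)
    (by
      intro x hx
      have : x ∈ B := by rw [List.mem_reverse] at hx; rwa [← hFset, List.mem_toFinset]
      obtain ⟨a, _, rfl⟩ := Finset.mem_image.1 this
      exact Nat.lt_succ_of_le (hgle a))
    (by have := Nat.div_le_self n 2; omega)
    (by rwa [List.reverse_reverse, List.append_nil])
  rw [hlen, h] at this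
  exact absurd this (by simp)

end H845.TInd
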