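import Mathlib
import Pool.Agent.H845.KneserAux

/-!
Tools for `h`-fold sumsets in `ZMod n`: reduction modulo the stabiliser (Kneser) and the partition
into residue classes modulo a prime.
-/

set_option autoImplicit false
set_option linter.unusedSectionVars false

open scoped Pointwise
open Finset Pool.Agent.Helper450.Kneser Pool.Agent.H845.KneserAux

namespace Pool.Agent.H845.ZeroSum

section hom

variable {G K : Type*} [AddCommGroup G] [DecidableEq G] [AddCommGroup K] [DecidableEq K]
  [Fintype G] [Fintype K]

/-- images of iterated sumsets -/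
theorem it_image (f : G →+ K) (A : Finset G) (j : ℕ) : it (A.image f) j = (it A j).image f := by
  induction j with
  | zero => simp [it]
  | succ j ih => rw [it, it, ih, Finset.image_add]

theorem it_mono {A B : Finset G} (h : A ⊆ B) (j : ℕ) : it A j ⊆ it B j := by
  induction j with
  | zero => exact Finset.Subset.refl _
  | succ j ih => exact Finset.add_subset_add ih h

/-- iterating twice -/
theorem it_it (A : Finset G) (i j : ℕ) : it (it A i) j = it A (i * j) := by
  induction j with
  | zero => rfl
  | succ j ih => rw [it, ih, Nat.mul_succ, it_add]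

/-- translates -/
theorem it_translate (A : Finset G) (t : G) (j : ℕ) {x : G}
    (hx : x ∈ it (A.image (fun a => a + t)) j) : x - j • t ∈ it A j := by
  induction j generalizing x with
  | zero =>
    have h0 : x = 0 := by simpa [it] using hx
    rw [h0]
    simp [it]
  | succ j ih =>
    rw [it] at hx ⊢
    obtain ⟨y, hy, z, hz, rfl⟩ := Finset.mem_add.mp hx
    obtain ⟨a, ha, rfl⟩ := Finset.mem_image.mp hz
    have h1 := Finset.add_mem_add (ih hy) ha
    convert h1 using 1
    rw [succ_nsmul]
    abel

end hom

section cyclic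

/-- Kneser's theorem, reduction to an aperiodic sumset in a quotient -/
theorem reduce {n : ℕ} [NeZero n] (A : Finset (ZMod n)) (hA : A.Nonempty) (j : ℕ) (hj : 1 ≤ j) :
    ∃ (e : ℕ) (he : e ∣ n) (_ : NeZero e),
      j * (A.image (ZMod.castHom he (ZMod e))).card ≤
        (it (A.image (ZMod.castHom he (ZMod e))) j).card + (j - 1) ∧
      A.card ≤ (A.image (ZMod.castHom he (ZMod e))).card * (n / e) ∧
      ∀ x : ZMod n, ZMod.castHom he (ZMod e) x ∈ it (A.image (ZMod.castHom he (ZMod e))) j →
        x ∈ it A j := by
  classical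
  set H := stab (it A j) with hH
  set m := (fs H).card with hm
  have hmpos : 0 < m := fs_card_pos H
  have hn0 : 0 < n := Nat.pos_of_ne_zero (NeZero.ne n)
  have hn : (Finset.univ : Finset (ZMod n)).card = n := by rw [Finset.card_univ, ZMod.card]
  have huniv : H ≤ stab (Finset.univ : Finset (ZMod n)) := by
    intro g _
    exact mem_stab_of_forall fun z _ => Finset.mem_univ _
  obtain ⟨e, hd⟩ := card_fs_dvd huniv
  rw [hn, ← hm] at hd
  have he : e ∣ n := ⟨m, by rw [mul_comm]; exact hd⟩
  have he0 : 0 < e := Nat.pos_of_dvd_of_pos he hn0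
  have hne : NeZero e := ⟨he0.ne'⟩
  have hnm : n / e = m := Nat.div_eq_of_eq_mul_left he0 hd
  let f : ZMod n →+* ZMod e := ZMod.castHom he (ZMod e)
  -- the stabiliser is the kernel
  have hker1 : ∀ x ∈ H, f x = 0 := by
    intro x hx
    have h1 : m • x = 0 := by
      have h2 : Nat.card H = m := by
        rw [hm]
        have : fs H = (H : Set (ZMod n)).toFinset := by
          ext y
          simp [mem_fs]
        rw [this, Set.toFinset_card, Nat.card_eq_fintype_card]
        rfl
      have h3 := card_nsmul_eq_zero' (x := (⟨x, hx⟩ : H))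
      rw [h2] at h3
      exact congrArg Subtype.val h3
    have h4 : ((m * x.val : ℕ) : ZMod n) = 0 := by
      push_cast
      rw [ZMod.natCast_val, ZMod.cast_id', id, ← nsmul_eq_mul]
      exact h1
    rw [ZMod.natCast_eq_zero_iff] at h4
    have h5 : e ∣ x.val := by
      obtain ⟨c, hc⟩ := h4
      have h7 : m * x.val = m * (e * c) := by
        rw [hc]
        calc n * c = (m * e) * c := congrArg (· * c) hd
          _ = _ := by ring
      exact ⟨c, Nat.eq_of_mul_eq_mul_left hmpos h7⟩
    have h6 : f x = ((x.val : ℕ) : ZMod e) := by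
      conv_lhs => rw [← ZMod.natCast_zmod_val x]
      exact map_natCast f _
    rw [h6, ZMod.natCast_eq_zero_iff]
    exact h5
  have hkercard : (Finset.univ.filter fun x : ZMod n => f x ∈ ({0} : Finset (ZMod e))).card = m := by
    rw [card_preimage he, Finset.card_singleton, one_mul, hnm]
  have hker : fs H = Finset.univ.filter fun x : ZMod n => f x ∈ ({0} : Finset (ZMod e)) := by
    apply Finset.eq_of_subset_of_card_le
    · intro x hx
      rw [Finset.mem_filter, Finset.mem_singleton]
      exact ⟨Finset.mem_univ _, hker1 x (mem_fs.mp hx)⟩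
    · rw [hkercard]
  have hmemH : ∀ x, f x = 0 → x ∈ H := by
    intro x hx
    rw [← mem_fs, hker, Finset.mem_filter, Finset.mem_singleton]
    exact ⟨Finset.mem_univ _, hx⟩
  have himg : ∀ C : Finset (ZMod n), C + fs H =
      Finset.univ.filter fun x : ZMod n => f x ∈ C.image f := by
    intro C
    ext x
    rw [Finset.mem_filter, Finset.mem_image]
    constructor
    · intro hx
      obtain ⟨a, ha, g, hg, rfl⟩ := Finset.mem_add.mp hx
      exact ⟨Finset.mem_univ _, a, ha, by rw [map_add, hker1 g (mem_fs.mp hg), add_zero]⟩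
    · rintro ⟨-, a, ha, hax⟩
      have h1 : x - a ∈ H := hmemH _ (by rw [map_sub, hax, sub_self])
      have := Finset.add_mem_add ha (mem_fs.mpr h1)
      rwa [add_sub_cancel] at this
  have hcard : ∀ C : Finset (ZMod n), (C + fs H).card = (C.image f).card * m := by
    intro C
    rw [himg C, card_preimage he, hnm]
  have hper : it A j + fs H = it A j := add_fs_stab _ _ le_rfl
  have hitim : it (A.image f) j = (it A j).image f := it_image f.toAddMonoidHom A j
  refine ⟨e, he, hne, ?_, ?_, ?_⟩
  · have hK := kneser_it hA hj
    rw [← hH, ← hm, hcard A] at hK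
    have h1 := hcard (it A j)
    rw [hper, ← hitim] at h1
    rw [h1] at hK
    have h2 : m * (j * (A.image f).card) ≤ m * ((it (A.image f) j).card + (j - 1)) := by
      calc m * (j * (A.image f).card) = j * ((A.image f).card * m) := by ring
        _ ≤ _ := hK
        _ = _ := by ring
    exact Nat.le_of_mul_le_mul_left h2 hmpos
  · rw [hnm]
    have h1 := hcard A
    have h2 : A ⊆ A + fs H := by
      intro x hx
      have := Finset.add_mem_add hx (mem_fs.mpr H.zero_mem)
      rwa [add_zero] at this
    exact (Finset.card_le_card h2).trans h1.le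
  · intro x hx
    rw [← hper, himg]
    rw [Finset.mem_filter]
    exact ⟨Finset.mem_univ _, by rw [← hitim]; exact hx⟩

/-- partition into residue classes modulo `p`; the class of `i` is represented in `ZMod m`,
`n = p * m` -/
theorem classes {n p m : ℕ} [NeZero n] [NeZero m] (hn : n = p * m) (hp : 0 < p)
    (A : Finset (ZMod n)) :
    ∃ C : ℕ → Finset (ZMod m), A.card ≤ ∑ i ∈ range p, (C i).card ∧
      ∀ i h : ℕ, ∀ t : ℤ, p * t + h * i = 0 → (t : ZMod m) ∈ it (C i) h →
        (0 : ZMod n) ∈ it A h := by
  classical
  let φ : ZMod m →+ ZMod n := ZMod.lift m ⟨zmultiplesHom (ZMod n) (p : ZMod n), by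
    rw [zmultiplesHom_apply]
    rw [zsmul_eq_mul]
    have : ((m : ℤ) : ZMod n) * (p : ZMod n) = ((p * m : ℕ) : ZMod n) := by push_cast; ring
    rw [this, ← hn, ZMod.natCast_self]⟩
  have hφ : ∀ t : ℤ, φ (t : ZMod m) = ((p * t : ℤ) : ZMod n) := by
    intro t
    show ZMod.lift m _ (t : ZMod m) = _
    rw [ZMod.lift_coe]
    show zmultiplesHom (ZMod n) (p : ZMod n) t = _
    rw [zmultiplesHom_apply, zsmul_eq_mul]
    push_cast
    ring
  refine ⟨fun i => Finset.univ.filter fun y => φ y + (i : ZMod n) ∈ A, ?_, ?_⟩
  · have hsub : A ⊆ (range p).biUnion fun i =>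
        (Finset.univ.filter fun y => φ y + (i : ZMod n) ∈ A).image fun y => φ y + (i : ZMod n) := by
      intro x hx
      rw [Finset.mem_biUnion]
      refine ⟨x.val % p, Finset.mem_range.mpr (Nat.mod_lt _ hp), ?_⟩
      have hxe : φ (((x.val / p : ℕ) : ℤ) : ZMod m) + ((x.val % p : ℕ) : ZMod n) = x := by
        rw [hφ]
        have h1 : p * (x.val / p) + x.val % p = x.val := Nat.div_add_mod _ _
        have h2 := congrArg (Nat.cast : ℕ → ZMod n) h1
        rw [ZMod.natCast_zmod_val] at h2
        refine Eq.trans ?_ h2
        generalize x.val / p = q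
        generalize x.val % p = r
        push_cast
        ring
      rw [Finset.mem_image]
      exact ⟨_, Finset.mem_filter.mpr ⟨Finset.mem_univ _, by rw [hxe]; exact hx⟩, hxe⟩
    refine (Finset.card_le_card hsub).trans (Finset.card_biUnion_le.trans ?_)
    exact Finset.sum_le_sum fun i _ => Finset.card_image_le
  · intro i h t ht hmem
    have key : ∀ (h : ℕ) (y : ZMod m),
        y ∈ it (Finset.univ.filter fun y => φ y + (i : ZMod n) ∈ A) h →
        φ y + h • (i : ZMod n) ∈ it A h := by
      intro h
      induction h with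
      | zero =>
        intro y hy
        have : y = 0 := by simpa [it] using hy
        rw [this]
        simp [it]
      | succ h ih =>
        intro y hy
        rw [it] at hy ⊢
        obtain ⟨a, ha, b, hb, rfl⟩ := Finset.mem_add.mp hy
        have h1 := Finset.add_mem_add (ih a ha) (Finset.mem_filter.mp hb).2
        convert h1 using 1
        rw [map_add, succ_nsmul]
        abel
    have h1 := key h _ hmem
    rw [hφ] at h1
    convert h1 using 1
    have h2 := congrArg (Int.cast : ℤ → ZMod n) ht
    push_cast at h2 ⊢
    rw [nsmul_eq_mul]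
    exact h2.symm

end cyclic

end Pool.Agent.H845.ZeroSum
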