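import Mathlib
import Pool.Agent.H845.ZeroSum

/-!
The upper bound for the size of `A ⊆ Z_n` with `s ∉ hA`: for every `n, h, s` there is a divisor `e`
of `n` with `|A| ≤ ⌊(e + h - 1 - gcd(s,e,h))/h⌋ n/e`.
-/

set_option autoImplicit false

open scoped Pointwise
open Finset Pool.Agent.Helper450.Kneser Pool.Agent.H845.KneserAux Pool.Agent.H845.ZeroSum

namespace Pool.Agent.H845.ZeroSumMain

/-- the value attached to a divisor `e` and `d = gcd(s,e,h)` -/
def w (h e d : ℕ) : ℕ := (e + h - 1 - d) / h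

theorem w_bad {h e d : ℕ} (hh : 0 < h) (hd : d ≤ e) (hq : h ∣ e - d) : h * w h e d = e - d := by
  obtain ⟨q, hq⟩ := hq
  have h1 : e + h - 1 - d = (h - 1) + h * q := by omega
  unfold w
  rw [h1, Nat.add_mul_div_left _ _ hh, Nat.div_eq_of_lt (by omega), zero_add, hq]

theorem w_dvd {h e d : ℕ} (hh : 0 < h) (hq : h ∣ e) : h * w h e d ≤ e := by
  obtain ⟨q, rfl⟩ := hq
  unfold w
  have h1 : (h * q + h - 1 - d) / h ≤ q := by
    rw [← Nat.lt_succ_iff, Nat.div_lt_iff_lt_mul hh, Nat.succ_mul, mul_comm q h]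
    omega
  exact Nat.mul_le_mul_left h h1

/-- a divisor `e` with `e ≢ gcd(e,h)` gives enough -/
theorem case1 {h n k e g : ℕ} (hh : 0 < h) (hk : 1 ≤ k) (hn : n + h = h * k + g) (hg : 0 < g)
    (he : e ∣ n) (hn0 : 0 < n) (hbad : ¬ h ∣ e - Nat.gcd e h) :
    k ≤ w h e (Nat.gcd e h) * (n / e) := by
  obtain ⟨f, rfl⟩ := he
  have he0 : 0 < e := Nat.pos_of_mul_pos_right hn0
  rw [Nat.mul_div_cancel_left _ he0]
  set γ := Nat.gcd e h with hγ
  have hγ0 : 0 < γ := Nat.gcd_pos_of_pos_left _ he0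
  have hγe : γ ∣ e := Nat.gcd_dvd_left _ _
  have hγh : γ ∣ h := Nat.gcd_dvd_right _ _
  set c := e % h with hc
  set q := e / h with hq
  have heq : h * q + c = e := Nat.div_add_mod _ _
  have hclt : c < h := Nat.mod_lt _ hh
  have hγc : γ ∣ c := (Nat.dvd_mod_iff hγh).2 hγe
  have hc0 : c ≠ 0 := by
    intro h0
    have h1 : h ∣ e := Nat.dvd_of_mod_eq_zero h0
    apply hbad
    have h2 : γ = h := Nat.gcd_eq_right h1
    rw [h2]
    exact Nat.dvd_sub h1 dvd_rfl
  have hcγ : c ≠ γ := by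
    intro h0
    apply hbad
    refine ⟨q, ?_⟩
    omega
  have hcγ2 : γ + 1 ≤ c := by
    have := Nat.le_of_dvd (Nat.pos_of_ne_zero hc0) hγc
    omega
  have hw : q + 1 ≤ w h e γ := by
    unfold w
    rw [Nat.le_div_iff_mul_le hh]
    have : (q + 1) * h = h * q + h := by ring
    omega
  have hkey : h * (k - 1) < h * ((q + 1) * f) := by
    have h1 : h * ((q + 1) * f) = e * f + (h - c) * f := by
      have h2 : h * (q + 1) = e + (h - c) := by
        rw [mul_add, mul_one]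
        omega
      calc h * ((q + 1) * f) = (h * (q + 1)) * f := by ring
        _ = (e + (h - c)) * f := by rw [h2]
        _ = _ := by ring
    have h3 : h * k = h * (k - 1) + h := by
      obtain ⟨k', rfl⟩ : ∃ k', k = k' + 1 := ⟨k - 1, by omega⟩
      rw [Nat.add_sub_cancel]
      ring
    have h4 : 0 ≤ (h - c) * f := Nat.zero_le _
    omega
  have h5 : k - 1 < (q + 1) * f := lt_of_mul_lt_mul_left hkey (Nat.zero_le _)
  calc k ≤ (q + 1) * f := by omega
    _ ≤ w h e γ * f := Nat.mul_le_mul_right f hw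

/-- translation to the value `0` -/
theorem to_zero {n h : ℕ} [NeZero n] {s : ℤ} {A : Finset (ZMod n)}
    (hs : (s : ZMod n) ∉ it A h) (hd : ((Nat.gcd n h : ℕ) : ℤ) ∣ s) :
    ∃ A' : Finset (ZMod n), A'.card = A.card ∧ (0 : ZMod n) ∉ it A' h := by
  obtain ⟨s', hs'⟩ := hd
  have hb := Nat.gcd_eq_gcd_ab n h
  set t : ZMod n := ((Nat.gcdB n h * s' : ℤ) : ZMod n) with ht
  have hts : (s : ZMod n) = h • t := by
    rw [hs', hb, ht, nsmul_eq_mul]
    push_cast
    rw [ZMod.natCast_self]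
    ring
  refine ⟨A.image (fun a => a + -t), ?_, ?_⟩
  · exact Finset.card_image_of_injective _ (add_left_injective _)
  · intro h0
    have h1 := it_translate A (-t) h h0
    apply hs
    rw [hts]
    convert h1 using 1
    rw [smul_neg]
    abel

/-- the induction hypothesis in `n` -/
def Hyp (h m : ℕ) : Prop := ∀ (_ : NeZero m) (s : ℤ) (A : Finset (ZMod m)),
  (s : ZMod m) ∉ it A h →
    ∃ e, e ∣ m ∧ A.card ≤ w h e (Int.gcd s ((Nat.gcd e h : ℕ) : ℤ)) * (m / e)

theorem gcd_of_dvd {x : ℕ} {s : ℤ} (h : (x : ℤ) ∣ s) : Int.gcd s (x : ℤ) = x := by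
  show Nat.gcd s.natAbs (x : ℤ).natAbs = x
  rw [Int.natAbs_natCast]
  exact Nat.gcd_eq_right (Int.natCast_dvd.1 h)

theorem class_step {n h q : ℕ} [NeZero n] (hq : q.Prime) (hqn : q ∣ n) (hqh : q ∣ h)
    (ih : ∀ m < n, Hyp h m) (A : Finset (ZMod n)) (h0 : (0 : ZMod n) ∉ it A h)
    (hX : ∀ e, e ∣ n / q → Nat.gcd e h ∣ h / q) :
    ∃ e, e ∣ n ∧ A.card ≤ w h e (Nat.gcd e h) * (n / e) := by
  have hn0 : 0 < n := Nat.pos_of_ne_zero (NeZero.ne n)
  obtain ⟨m, hm⟩ := hqn
  have hm0 : 0 < m := by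
    rcases Nat.eq_zero_or_pos m with h | h
    · rw [h, mul_zero] at hm
      omega
    · exact h
  have hmn : m < n := by
    rw [hm]
    have := hq.two_le
    nlinarith
  have hnm : n / q = m := Nat.div_eq_of_eq_mul_right hq.pos hm
  rw [hnm] at hX
  have hNZ : NeZero m := ⟨hm0.ne'⟩
  obtain ⟨C, hC1, hC2⟩ := classes hm hq.pos A
  obtain ⟨i, hi, himax⟩ := Finset.exists_max_image (range q) (fun i => (C i).card)
    ⟨0, Finset.mem_range.mpr hq.pos⟩
  obtain ⟨h1, hh1⟩ := hqh
  have hhq : h / q = h1 := Nat.div_eq_of_eq_mul_right hq.pos hh1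
  rw [hhq] at hX
  have hnot : ((-(h1 * i : ℤ) : ℤ) : ZMod m) ∉ it (C i) h := by
    intro hmem
    refine h0 (hC2 i h _ ?_ hmem)
    rw [hh1]
    push_cast
    ring
  obtain ⟨e, he, hcard⟩ := ih m hmn hNZ _ _ hnot
  have hδ : Int.gcd (-(h1 * i : ℤ)) ((Nat.gcd e h : ℕ) : ℤ) = Nat.gcd e h := by
    apply gcd_of_dvd
    have h2 : ((Nat.gcd e h : ℕ) : ℤ) ∣ (h1 : ℤ) := by exact_mod_cast hX e he
    exact (Dvd.dvd.mul_right h2 _).neg_right
  rw [hδ] at hcard
  refine ⟨e, he.trans ⟨q, by rw [hm, mul_comm]⟩, ?_⟩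
  obtain ⟨f, hf⟩ := he
  have he0 : 0 < e := by
    rcases Nat.eq_zero_or_pos e with h | h
    · rw [h, zero_mul] at hf
      omega
    · exact h
  have h3 : m / e = f := Nat.div_eq_of_eq_mul_right he0 hf
  have h4 : n / e = q * f := by
    apply Nat.div_eq_of_eq_mul_right he0
    rw [hm, hf]
    ring
  rw [h4]
  rw [h3] at hcard
  calc A.card ≤ ∑ i ∈ range q, (C i).card := hC1
    _ ≤ ∑ _j ∈ range q, (C i).card := Finset.sum_le_sum himax
    _ = q * (C i).card := by rw [Finset.sum_const, Finset.card_range, smul_eq_mul]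
    _ ≤ q * (w h e (Nat.gcd e h) * f) := Nat.mul_le_mul_left q hcard
    _ = _ := by ring

/-- prime power `h`, all divisors bad -/
theorem prime_power {n h p v : ℕ} [NeZero n] (hp : p.Prime) (hpn : p ∣ n) (hv : 1 ≤ v)
    (hh : h = p ^ v) (ih : ∀ m < n, Hyp h m) (hall : ∀ e, e ∣ n → h ∣ e - Nat.gcd e h)
    (A : Finset (ZMod n)) (h0 : (0 : ZMod n) ∉ it A h) : h * A.card < n := by
  have hn0 : 0 < n := Nat.pos_of_ne_zero (NeZero.ne n)
  obtain ⟨m, hm⟩ := hpn
  have hm0 : 0 < m := by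
    rcases Nat.eq_zero_or_pos m with h | h
    · rw [h, mul_zero] at hm
      omega
    · exact h
  have hmn : m < n := by
    rw [hm]
    have := hp.two_le
    nlinarith
  have hNZ : NeZero m := ⟨hm0.ne'⟩
  obtain ⟨C, hC1, hC2⟩ := classes hm hp.pos A
  obtain ⟨v', rfl⟩ : ∃ v', v = v' + 1 := ⟨v - 1, by omega⟩
  have hhpos : 0 < h := by rw [hh]; exact pow_pos hp.pos _
  have hbound : ∀ i, h * (C i).card ≤ m ∧ (i = 0 → h * (C i).card < m) := by
    intro i
    have hnot : ((-(p ^ v' * i : ℤ) : ℤ) : ZMod m) ∉ it (C i) h := by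
      intro hmem
      refine h0 (hC2 i h _ ?_ hmem)
      rw [hh]
      push_cast
      ring
    obtain ⟨e, he, hcard⟩ := ih m hmn hNZ _ _ hnot
    have hen : e ∣ n := he.trans ⟨p, by rw [hm, mul_comm]⟩
    obtain ⟨f, hf⟩ := he
    have he0 : 0 < e := by
      rcases Nat.eq_zero_or_pos e with h | h
      · rw [h, zero_mul] at hf
        omega
      · exact h
    have hf0 : 0 < f := by
      rcases Nat.eq_zero_or_pos f with h | h
      · rw [h, mul_zero] at hf
        omega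
      · exact h
    have h3 : m / e = f := Nat.div_eq_of_eq_mul_right he0 hf
    rw [h3] at hcard
    set δ := Int.gcd (-(p ^ v' * i : ℤ)) ((Nat.gcd e h : ℕ) : ℤ) with hδ
    have hγ0 : 0 < Nat.gcd e h := Nat.gcd_pos_of_pos_left _ he0
    have hγe : Nat.gcd e h ≤ e := Nat.le_of_dvd he0 (Nat.gcd_dvd_left _ _)
    have hmain : h * w h e δ ≤ e ∧ (i = 0 → h * w h e δ < e) := by
      have hzero : i = 0 → δ = Nat.gcd e h := by
        intro hi
        rw [hδ, hi]
        simp
      have hbadw := w_bad hhpos hγe (hall e hen)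
      by_cases hhe : h ∣ e
      · refine ⟨w_dvd hhpos hhe, fun hi => ?_⟩
        rw [hzero hi, hbadw]
        omega
      · have hδe : δ = Nat.gcd e h := by
          apply gcd_of_dvd
          have h5 : Nat.gcd e h ∣ p ^ (v' + 1) := hh ▸ Nat.gcd_dvd_right e h
          obtain ⟨b, hb, hb'⟩ := (Nat.dvd_prime_pow hp).1 h5
          have hbv : b ≤ v' := by
            by_contra hlt
            have hbe : b = v' + 1 := by omega
            apply hhe
            rw [hh, ← hbe, ← hb']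
            exact Nat.gcd_dvd_left _ _
          rw [hb']
          have h6 : ((p ^ b : ℕ) : ℤ) ∣ (p : ℤ) ^ v' := by
            push_cast
            exact pow_dvd_pow _ hbv
          exact (Dvd.dvd.mul_right h6 _).neg_right
        rw [hδe, hbadw]
        exact ⟨Nat.sub_le _ _, fun _ => by omega⟩
    constructor
    · calc h * (C i).card ≤ h * (w h e δ * f) := Nat.mul_le_mul_left h hcard
        _ = (h * w h e δ) * f := by ring
        _ ≤ e * f := Nat.mul_le_mul_right f hmain.1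
        _ = m := hf.symm
    · intro hi
      calc h * (C i).card ≤ h * (w h e δ * f) := Nat.mul_le_mul_left h hcard
        _ = (h * w h e δ) * f := by ring
        _ < e * f := Nat.mul_lt_mul_of_pos_right (hmain.2 hi) hf0
        _ = m := hf.symm
  calc h * A.card ≤ h * ∑ i ∈ range p, (C i).card := Nat.mul_le_mul_left h hC1
    _ = ∑ i ∈ range p, h * (C i).card := Finset.mul_sum _ _ _
    _ < ∑ _i ∈ range p, m := by
      refine Finset.sum_lt_sum (fun i _ => (hbound i).1) ⟨0, Finset.mem_range.mpr hp.pos, ?_⟩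
      exact (hbound 0).2 rfl
    _ = n := by rw [Finset.sum_const, Finset.card_range, smul_eq_mul, hm]

theorem gcd_mul_le (a b c : ℕ) (hb : 0 < b) : Nat.gcd (a * b) c ≤ Nat.gcd a c * b := by
  rcases Nat.eq_zero_or_pos c with rfl | hc
  · simp
  have h1 : Nat.gcd (a * b) c ∣ Nat.gcd a c * Nat.gcd b c := by
    rw [Nat.gcd_comm (a * b), Nat.gcd_comm a, Nat.gcd_comm b]
    exact Nat.gcd_mul_right_dvd_mul_gcd c a b
  have h2 : 0 < Nat.gcd a c * Nat.gcd b c :=
    Nat.mul_pos (Nat.gcd_pos_of_pos_right _ hc) (Nat.gcd_pos_of_pos_right _ hc)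
  exact (Nat.le_of_dvd h2 h1).trans
    (Nat.mul_le_mul_left _ (Nat.le_of_dvd hb (Nat.gcd_dvd_left _ _)))

/-- `h = h' P` with `h'` coprime to `n`, all divisors bad -/
theorem composite {n h h' P : ℕ} [NeZero n] (hh : h = h' * P) (hh' : 1 ≤ h') (hP : 1 ≤ P)
    (hcop : Nat.Coprime n h') (IH : ∀ m, 0 < m → Hyp P m)
    (hall : ∀ e, e ∣ n → h ∣ e - Nat.gcd e h)
    (A : Finset (ZMod n)) (hA : A.Nonempty) (h0 : (0 : ZMod n) ∉ it A h) :
    h * A.card + Nat.gcd n h ≤ n := by
  have hn0 : 0 < n := Nat.pos_of_ne_zero (NeZero.ne n)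
  have hhpos : 0 < h := by rw [hh]; exact Nat.mul_pos hh' hP
  obtain ⟨e, he, hNZ, hK, hAB, hlift⟩ := reduce A hA h' hh'
  set f := ZMod.castHom he (ZMod e) with hf
  set B := A.image f with hB
  have he0 : 0 < e := Nat.pos_of_ne_zero (NeZero.ne e)
  have hzero : ((0 : ℤ) : ZMod e) ∉ it (it B h') P := by
    intro hmem
    obtain ⟨P', rfl⟩ : ∃ P', P = P' + 1 := ⟨P - 1, by omega⟩
    rw [it] at hmem
    obtain ⟨u, hu, y, hy, huy⟩ := Finset.mem_add.mp hmem
    have h1 : it (it B h') P' = (it (it A h') P').image f := by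
      rw [hB, show it (A.image f) h' = (it A h').image f from it_image f.toAddMonoidHom A h']
      exact it_image f.toAddMonoidHom _ P'
    rw [h1] at hu
    obtain ⟨u', hu', rfl⟩ := Finset.mem_image.mp hu
    have h2 : y = f (-u') := by
      rw [map_neg]
      rw [Int.cast_zero] at huy
      exact eq_neg_of_add_eq_zero_right huy
    rw [h2] at hy
    have h3 := hlift _ hy
    apply h0
    rw [hh, ← it_it, it]
    have := Finset.add_mem_add hu' h3
    rwa [add_neg_cancel] at this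
  obtain ⟨g, hg, hcard⟩ := IH e he0 hNZ 0 _ hzero
  rw [Int.gcd_zero_left, Int.natAbs_natCast] at hcard
  -- the divisor `g` of `e`
  have hgn : g ∣ n := hg.trans he
  have hcopg : Nat.Coprime g h' := Nat.Coprime.coprime_dvd_left hgn hcop
  have hcope : Nat.Coprime e h' := Nat.Coprime.coprime_dvd_left he hcop
  have hgg : Nat.gcd g h = Nat.gcd g P := by
    rw [hh]
    exact Nat.Coprime.gcd_mul_left_cancel_right P hcopg.symm
  have hge : Nat.gcd e h = Nat.gcd e P := by
    rw [hh]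
    exact Nat.Coprime.gcd_mul_left_cancel_right P hcope.symm
  have hg0 : 0 < g := Nat.pos_of_dvd_of_pos hg he0
  have hγg : Nat.gcd g P ≤ g := Nat.le_of_dvd hg0 (Nat.gcd_dvd_left _ _)
  have hPw : P * w P g (Nat.gcd g P) = g - Nat.gcd g P := by
    apply w_bad hP hγg
    rw [← hgg]
    exact (Dvd.intro_left h' hh.symm).trans (hall g hgn)
  obtain ⟨f', hf'⟩ := hg
  have hf'0 : 0 < f' := by
    rcases Nat.eq_zero_or_pos f' with h | h
    · rw [h, mul_zero] at hf'
      omega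
    · exact h
  have hef : e / g = f' := Nat.div_eq_of_eq_mul_right hg0 hf'
  rw [hef] at hcard
  have h1 : P * (it B h').card + Nat.gcd e P ≤ e := by
    have h2 : P * (it B h').card ≤ (g - Nat.gcd g P) * f' := by
      calc P * (it B h').card ≤ P * (w P g (Nat.gcd g P) * f') := Nat.mul_le_mul_left P hcard
        _ = (P * w P g (Nat.gcd g P)) * f' := by ring
        _ = _ := by rw [hPw]
    have h3 : Nat.gcd e P ≤ Nat.gcd g P * f' := by
      rw [hf']
      exact gcd_mul_le g f' P hf'0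
    have h4 : (g - Nat.gcd g P) * f' + Nat.gcd g P * f' = e := by
      rw [← Nat.add_mul, Nat.sub_add_cancel hγg, hf']
    omega
  have hγe : Nat.gcd e h ≤ e := Nat.le_of_dvd he0 (Nat.gcd_dvd_left _ _)
  obtain ⟨y, hy⟩ := hall e he
  have h5 : h * B.card + P + Nat.gcd e h ≤ e + h := by
    have h6 : P * (h' * B.card) ≤ P * ((it B h').card + (h' - 1)) := Nat.mul_le_mul_left P hK
    have h7 : P * (h' - 1) + P = h := by
      obtain ⟨z, rfl⟩ : ∃ z, h' = z + 1 := ⟨h' - 1, by omega⟩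
      rw [hh, Nat.add_sub_cancel]
      ring
    have h8 : P * (h' * B.card) = h * B.card := by rw [hh]; ring
    rw [hge]
    rw [mul_add, h8] at h6
    omega
  have h9 : B.card ≤ y := by
    have h10 : h * B.card < h * (y + 1) := by
      rw [mul_add, mul_one, ← hy]
      omega
    have := lt_of_mul_lt_mul_left h10 (Nat.zero_le _)
    omega
  have h11 : h * B.card + Nat.gcd e h ≤ e := by
    have := Nat.mul_le_mul_left h h9
    omega
  obtain ⟨r, hr⟩ := he
  have hr0 : 0 < r := by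
    rcases Nat.eq_zero_or_pos r with h | h
    · rw [h, mul_zero] at hr
      omega
    · exact h
  have hnr : n / e = r := Nat.div_eq_of_eq_mul_right he0 hr
  rw [hnr] at hAB
  have h12 : Nat.gcd n h ≤ Nat.gcd e h * r := by
    have := gcd_mul_le e r h hr0
    rwa [← hr] at this
  calc h * A.card + Nat.gcd n h ≤ h * (B.card * r) + Nat.gcd e h * r :=
        Nat.add_le_add (Nat.mul_le_mul_left h hAB) h12
    _ = (h * B.card + Nat.gcd e h) * r := by ring
    _ ≤ e * r := Nat.mul_le_mul_right r h11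
    _ = n := hr.symm

/-- the main theorem -/
theorem main : ∀ h : ℕ, 1 ≤ h → ∀ n : ℕ, 0 < n → Hyp h n := by
  intro h
  induction h using Nat.strong_induction_on with
  | _ h IH =>
  intro hh n
  induction n using Nat.strong_induction_on with
  | _ n ih0 =>
  intro hn0 hNZ s A hs
  have ih : ∀ m < n, Hyp h m := by
    intro m hm hm0
    exact ih0 m hm (Nat.pos_of_ne_zero hm0.ne) hm0
  rcases A.eq_empty_or_nonempty with rfl | hne
  · exact ⟨n, dvd_rfl, by simp⟩
  obtain ⟨d, hd, hNZd, hK, hAB, hlift⟩ := reduce A hne h hh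
  set f := ZMod.castHom hd (ZMod d) with hf
  set B := A.image f with hB
  have hd0 : 0 < d := Nat.pos_of_ne_zero (NeZero.ne d)
  have hsB : (s : ZMod d) ∉ it B h := by
    intro hmem
    apply hs
    apply hlift
    rwa [map_intCast]
  have hlt : (it B h).card < d := by
    have h1 : (it B h).card < Fintype.card (ZMod d) :=
      Finset.card_lt_univ_of_notMem hsB
    rwa [ZMod.card] at h1
  obtain ⟨r, hr⟩ := hd
  have hnr : n / d = r := Nat.div_eq_of_eq_mul_right hd0 hr
  rw [hnr] at hAB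
  rcases Nat.lt_or_ge d n with hdn | hdn
  · obtain ⟨e, he, hcard⟩ := ih d hdn hNZd s B hsB
    refine ⟨e, he.trans ⟨r, hr⟩, ?_⟩
    obtain ⟨f', hf'⟩ := he
    have he0 : 0 < e := by
      rcases Nat.eq_zero_or_pos e with h | h
      · rw [h, zero_mul] at hf'
        omega
      · exact h
    have h3 : d / e = f' := Nat.div_eq_of_eq_mul_right he0 hf'
    have h4 : n / e = f' * r := by
      apply Nat.div_eq_of_eq_mul_right he0
      rw [hr, hf']
      ring
    rw [h3] at hcard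
    rw [h4]
    calc A.card ≤ B.card * r := hAB
      _ ≤ (w h e (Int.gcd s ((Nat.gcd e h : ℕ) : ℤ)) * f') * r := Nat.mul_le_mul_right r hcard
      _ = _ := by ring
  -- now `d = n`
  have hdn' : d = n := le_antisymm (Nat.le_of_dvd hn0 ⟨r, hr⟩) hdn
  have hr1 : r = 1 := by
    rw [← hnr, hdn', Nat.div_self hn0]
  rw [hr1, mul_one] at hAB
  have hK2 : h * A.card + 2 ≤ n + h := by
    have := Nat.mul_le_mul_left h hAB
    omega
  have hk1 : 1 ≤ A.card := hne.card_pos
  set δ := Int.gcd s ((Nat.gcd n h : ℕ) : ℤ) with hδ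
  by_cases hk : A.card ≤ w h n δ
  · exact ⟨n, dvd_rfl, by rw [Nat.div_self hn0, mul_one]; exact hk⟩
  push Not at hk
  have hG0 : 0 < Nat.gcd n h := Nat.gcd_pos_of_pos_left _ hn0
  have hδG : δ ∣ Nat.gcd n h := by
    have h1 := Int.gcd_dvd_right s ((Nat.gcd n h : ℕ) : ℤ)
    exact Int.natCast_dvd_natCast.1 h1
  have hδs : (δ : ℤ) ∣ s := Int.gcd_dvd_left s _
  have hδn : δ ∣ n := hδG.trans (Nat.gcd_dvd_left _ _)
  have hδh : δ ∣ h := hδG.trans (Nat.gcd_dvd_right _ _)
  have hδ0 : 0 < δ := Nat.pos_of_dvd_of_pos hδG hG0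
  have hδlen : δ ≤ n := Nat.le_of_dvd hn0 hδn
  have hlow : n + h - 1 - δ < A.card * h := by
    unfold w at hk
    exact (Nat.div_lt_iff_lt_mul hh).1 hk
  obtain ⟨t, ht⟩ : ∃ t, n + h = h * A.card + t := ⟨n + h - h * A.card, by omega⟩
  have ht2 : 2 ≤ t := by omega
  have htδ : t ≤ δ := by
    rw [mul_comm] at hlow
    omega
  have hδt : δ ∣ t := by
    have h1 : δ ∣ n + h := Nat.dvd_add hδn hδh
    rw [ht] at h1
    exact (Nat.dvd_add_right (Dvd.dvd.mul_right hδh _)).1 h1
  have hteq : t = δ := le_antisymm htδ (Nat.le_of_dvd (by omega) hδt)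
  rw [hteq] at ht ht2
  have hGδ : Nat.gcd n h = δ := by
    apply Nat.dvd_antisymm _ hδG
    have h1 : Nat.gcd n h ∣ n + h := Nat.dvd_add (Nat.gcd_dvd_left _ _) (Nat.gcd_dvd_right _ _)
    rw [ht] at h1
    exact (Nat.dvd_add_right (Dvd.dvd.mul_right (Nat.gcd_dvd_right n h) _)).1 h1
  obtain ⟨A', hA'c, hA'0⟩ := to_zero hs (by rw [hGδ]; exact hδs)
  suffices hgoal : ∃ e, e ∣ n ∧ A'.card ≤ w h e (Nat.gcd e h) * (n / e) by
    obtain ⟨e, he, h1⟩ := hgoal
    refine ⟨e, he, ?_⟩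
    have h2 : Int.gcd s ((Nat.gcd e h : ℕ) : ℤ) = Nat.gcd e h := by
      apply gcd_of_dvd
      refine dvd_trans ?_ hδs
      rw [← hGδ]
      exact_mod_cast Nat.gcd_dvd_gcd_of_dvd_left h he
    rw [h2, ← hA'c]
    exact h1
  rw [← hA'c] at ht hk1
  have hA'ne : A'.Nonempty := Finset.card_pos.1 hk1
  by_cases hall : ∀ e, e ∣ n → h ∣ e - Nat.gcd e h
  swap
  · push Not at hall
    obtain ⟨e, he, hbad⟩ := hall
    exact ⟨e, he, case1 hh hk1 ht hδ0 he hn0 hbad⟩
  by_cases hX : ∃ q : ℕ, q.Prime ∧ q ∣ n ∧ q ∣ h ∧ ∀ e, e ∣ n / q → Nat.gcd e h ∣ h / q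
  · obtain ⟨q, hq, hqn, hqh, hX⟩ := hX
    exact class_step hq hqn hqh ih A' hA'0 hX
  exfalso
  have hX' : ∀ q : ℕ, q.Prime → q ∣ n → ∀ v, q ^ v ∣ h → q ∣ h → q ^ v * q ∣ n := by
    intro q hq hqn v hv hqh
    by_contra hcon
    apply hX
    refine ⟨q, hq, hqn, hqh, fun e he => ?_⟩
    by_contra hne'
    apply hcon
    obtain ⟨y, hy⟩ := Nat.gcd_dvd_right e h
    have hqy : ¬ q ∣ y := by
      rintro ⟨z, hz⟩
      apply hne'
      refine ⟨z, ?_⟩
      apply Nat.div_eq_of_eq_mul_right hq.pos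
      calc h = Nat.gcd e h * y := hy
        _ = Nat.gcd e h * (q * z) := by rw [← hz]
        _ = _ := by ring
    have h1 : q ^ v ∣ Nat.gcd e h * y := by rw [← hy]; exact hv
    have h2 : Nat.Coprime (q ^ v) y := Nat.Coprime.pow_left v ((Nat.Prime.coprime_iff_not_dvd hq).2 hqy)
    have h3 : q ^ v ∣ e := (Nat.Coprime.dvd_of_dvd_mul_right h2 h1).trans (Nat.gcd_dvd_left _ _)
    obtain ⟨z, hz⟩ := h3.trans he
    refine ⟨z, ?_⟩
    have h4 := Nat.div_mul_cancel hqn
    rw [hz] at h4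
    rw [← h4]
    ring
  have hδ1 : δ ≠ 1 := by omega
  set p := δ.minFac with hpdef
  have hp : p.Prime := Nat.minFac_prime hδ1
  have hpδ : p ∣ δ := Nat.minFac_dvd δ
  have hpn : p ∣ n := hpδ.trans hδn
  have hph : p ∣ h := hpδ.trans hδh
  obtain ⟨v, h', hph', hfac⟩ := Nat.exists_eq_pow_mul_and_not_dvd (n := h) (by omega) p hp.ne_one
  have hv1 : 1 ≤ v := by
    rcases Nat.eq_zero_or_pos v with h0 | h0
    · rw [h0, pow_zero, one_mul] at hfac
      exact absurd (hfac ▸ hph) hph'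
    · exact h0
  have hPpos : 0 < p ^ v := pow_pos hp.pos v
  have he1 : p ^ v * p ∣ n := hX' p hp hpn v ⟨h', hfac⟩ hph
  have hcopp : Nat.Coprime p h' := (Nat.Prime.coprime_iff_not_dvd hp).2 hph'
  have hge1 : Nat.gcd (p ^ v * p) h = p ^ v := by
    conv_lhs => rw [hfac]
    rw [Nat.gcd_mul_left, hcopp.gcd_eq_one, mul_one]
  have hh'p : h' ∣ p - 1 := by
    have h1 := hall _ he1
    rw [hge1] at h1
    have h2 : p ^ v * p - p ^ v = p ^ v * (p - 1) := by rw [Nat.mul_sub, mul_one]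
    rw [h2] at h1
    conv at h1 => lhs; rw [hfac]
    exact Nat.dvd_of_mul_dvd_mul_left hPpos h1
  have hh'0 : 0 < h' := by
    rcases Nat.eq_zero_or_pos h' with h0 | h0
    · rw [h0, mul_zero] at hfac
      omega
    · exact h0
  have hcop : Nat.Coprime n h' := by
    rw [Nat.coprime_iff_gcd_eq_one]
    by_contra hne1
    have hq := Nat.minFac_prime hne1
    have hqd := Nat.minFac_dvd (Nat.gcd n h')
    have hqn : (Nat.gcd n h').minFac ∣ n := hqd.trans (Nat.gcd_dvd_left _ _)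
    have hqh' : (Nat.gcd n h').minFac ∣ h' := hqd.trans (Nat.gcd_dvd_right _ _)
    have hqh : (Nat.gcd n h').minFac ∣ h := hqh'.trans (Dvd.intro_left _ hfac.symm)
    have hqδ : (Nat.gcd n h').minFac ∣ δ := by
      rw [← hGδ]
      exact Nat.dvd_gcd hqn hqh
    have h1 : p ≤ (Nat.gcd n h').minFac := Nat.minFac_le_of_dvd hq.two_le hqδ
    have h2 : (Nat.gcd n h').minFac ≤ p - 1 :=
      Nat.le_of_dvd (by have := hp.two_le; omega) (hqh'.trans hh'p)
    have := hp.two_le
    omega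
  rcases Nat.lt_or_ge h' 2 with hlt2 | hge2
  · have hh'1 : h' = 1 := by omega
    rw [hh'1, mul_one] at hfac
    have h1 := prime_power hp hpn hv1 hfac ih hall A' hA'0
    have h2 : h ∣ n := by
      rw [hfac]
      exact (Dvd.intro _ rfl).trans he1
    have h3 : δ = h := by
      rw [← hGδ]
      exact Nat.gcd_eq_right h2
    omega
  · have hPh : p ^ v < h := by
      rw [hfac]
      nlinarith
    have h1 := composite (h := h) (h' := h') (P := p ^ v) (by rw [hfac, mul_comm]) hh'0 hPpos hcop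
      (fun m hm => IH (p ^ v) hPh hPpos m hm) hall A' hA'ne hA'0
    rw [hGδ] at h1
    omega

end Pool.Agent.H845.ZeroSumMain
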